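import Mathlib.NumberTheory.Chebyshev
import Mathlib.NumberTheory.Bertrand
import Mathlib.Analysis.SpecificLimits.Normed
import Mathlib.FieldTheory.Finite.Basic
import Mathlib.Tactic

set_option autoImplicit false

/-!
# A set with more sums than differences and more products than ratios

The set is `A = G · V`, where `V` consists of the elements of an interval lying in certain residue
classes modulo `M = 29 ^ t` (with few differences and many sums), and `G` consists of products of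
powers of distinct primes, with exponent vectors in `E · H^k`, where `H` is Conway's set.
-/

namespace Pool.Agent.Results.MP_9356de_co.BothDominant

open Finset

/-- Conway's set -/
def H : Finset ℕ := {0, 2, 3, 4, 7, 11, 12, 14}

/-- the sums of two elements of `H` -/
def SH : Finset ℕ := (H ×ˢ H).image (fun p => p.1 + p.2)

/-- the differences of two elements of `H` -/
def DH : Finset ℤ := (H ×ˢ H).image (fun p => (p.1 : ℤ) - p.2)

theorem card_SH : SH.card = 26 := by decide +kernel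

theorem card_DH : DH.card = 25 := by decide +kernel

theorem SH_lt : ∀ s ∈ SH, s < 29 := by decide +kernel

theorem H_le : ∀ s ∈ H, s ≤ 14 := by decide +kernel

/-! ### The additive part -/

/-- numbers all of whose `t` digits in base `29` are in `H` -/
def W : ℕ → Finset ℕ
  | 0 => {0}
  | t + 1 => (H ×ˢ W t).image (fun p => p.1 + 29 * p.2)

theorem mem_W_succ {t x : ℕ} : x ∈ W (t + 1) ↔ ∃ h ∈ H, ∃ w ∈ W t, h + 29 * w = x := by
  simp only [W, mem_image, mem_product, Prod.exists]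
  constructor
  · rintro ⟨h, w, ⟨hh, hw⟩, e⟩
    exact ⟨h, hh, w, hw, e⟩
  · rintro ⟨h, hh, w, hw, e⟩
    exact ⟨h, w, ⟨hh, hw⟩, e⟩

/-- the sums -/
def S (t : ℕ) : Finset ℕ := (W t ×ˢ W t).image (fun p => p.1 + p.2)

/-- the differences -/
def D (t : ℕ) : Finset ℤ := (W t ×ˢ W t).image (fun p => (p.1 : ℤ) - p.2)

theorem mem_S {t x : ℕ} : x ∈ S t ↔ ∃ w ∈ W t, ∃ w' ∈ W t, w + w' = x := by
  simp only [S, mem_image, mem_product, Prod.exists]
  constructor
  · rintro ⟨h, w, ⟨hh, hw⟩, e⟩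
    exact ⟨h, hh, w, hw, e⟩
  · rintro ⟨h, hh, w, hw, e⟩
    exact ⟨h, w, ⟨hh, hw⟩, e⟩

theorem mem_D {t : ℕ} {x : ℤ} : x ∈ D t ↔ ∃ w ∈ W t, ∃ w' ∈ W t, (w : ℤ) - w' = x := by
  simp only [D, mem_image, mem_product, Prod.exists]
  constructor
  · rintro ⟨h, w, ⟨hh, hw⟩, e⟩
    exact ⟨h, hh, w, hw, e⟩
  · rintro ⟨h, hh, w, hw, e⟩
    exact ⟨h, w, ⟨hh, hw⟩, e⟩

theorem card_S (t : ℕ) : 26 ^ t ≤ (S t).card := by
  induction t with
  | zero => simp [S, W]
  | succ t ih =>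
    have h : ((SH ×ˢ S t).image (fun p => p.1 + 29 * p.2)) ⊆ S (t + 1) := by
      intro x hx
      simp only [mem_image, mem_product, Prod.exists] at hx
      obtain ⟨s, u, ⟨hs, hu⟩, rfl⟩ := hx
      simp only [SH, mem_image, mem_product, Prod.exists] at hs
      obtain ⟨h1, h2, ⟨hh1, hh2⟩, rfl⟩ := hs
      obtain ⟨w1, hw1, w2, hw2, rfl⟩ := mem_S.mp hu
      exact mem_S.mpr ⟨h1 + 29 * w1, mem_W_succ.mpr ⟨h1, hh1, w1, hw1, rfl⟩, h2 + 29 * w2,
        mem_W_succ.mpr ⟨h2, hh2, w2, hw2, rfl⟩, by ring⟩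
    have h2 := card_le_card h
    rw [card_image_of_injOn, card_product, card_SH] at h2
    · calc 26 ^ (t + 1) = 26 * 26 ^ t := by ring
        _ ≤ 26 * (S t).card := Nat.mul_le_mul_left _ ih
        _ ≤ _ := h2
    · rintro ⟨a, b⟩ hab ⟨c, d⟩ hcd e
      simp only [coe_product, Set.mem_prod, mem_coe] at hab hcd
      have h3 := SH_lt a hab.1
      have h4 := SH_lt c hcd.1
      simp only at e
      have h5 : a = c := by omega
      have h6 : b = d := by omega
      rw [h5, h6]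

theorem card_D (t : ℕ) : (D t).card ≤ 25 ^ t := by
  induction t with
  | zero => simp [D, W]
  | succ t ih =>
    have h : D (t + 1) ⊆ (DH ×ˢ D t).image (fun p => p.1 + 29 * p.2) := by
      intro x hx
      obtain ⟨w, hw, w', hw', rfl⟩ := mem_D.mp hx
      obtain ⟨h1, hh1, w1, hw1, rfl⟩ := mem_W_succ.mp hw
      obtain ⟨h2, hh2, w2, hw2, rfl⟩ := mem_W_succ.mp hw'
      simp only [mem_image, mem_product, Prod.exists]
      refine ⟨(h1 : ℤ) - h2, (w1 : ℤ) - w2, ⟨?_, mem_D.mpr ⟨w1, hw1, w2, hw2, rfl⟩⟩, ?_⟩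
      · simp only [DH, mem_image, mem_product, Prod.exists]
        exact ⟨h1, h2, ⟨hh1, hh2⟩, rfl⟩
      · push_cast; ring
    have h2 := (card_le_card h).trans card_image_le
    rw [card_product, card_DH] at h2
    calc (D (t + 1)).card ≤ 25 * (D t).card := h2
      _ ≤ 25 * 25 ^ t := Nat.mul_le_mul_left _ ih
      _ = 25 ^ (t + 1) := by ring

theorem W_lt (t : ℕ) : ∀ w ∈ W t, 2 * w + 1 ≤ 29 ^ t := by
  induction t with
  | zero => simp [W]
  | succ t ih =>
    intro w hw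
    obtain ⟨h, hh, w1, hw1, rfl⟩ := mem_W_succ.mp hw
    have h1 := H_le h hh
    have h2 := ih w1 hw1
    rw [pow_succ]
    omega

theorem zero_mem_W (t : ℕ) : 0 ∈ W t := by
  induction t with
  | zero => simp [W]
  | succ t ih => exact mem_W_succ.mpr ⟨0, by decide, 0, ih, rfl⟩

/-! ### The multiplicative part -/

/-- products of powers of the numbers `P i` with exponents `E h`, `h ∈ H` -/
def G (P : ℕ → ℕ) (E : ℕ) : ℕ → Finset ℕ
  | 0 => {1}
  | k + 1 => (H ×ˢ G P E k).image (fun p => P k ^ (E * p.1) * p.2)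

theorem mem_G_succ {P : ℕ → ℕ} {E k x : ℕ} :
    x ∈ G P E (k + 1) ↔ ∃ h ∈ H, ∃ g ∈ G P E k, P k ^ (E * h) * g = x := by
  simp only [G, mem_image, mem_product, Prod.exists]
  constructor
  · rintro ⟨h, w, ⟨hh, hw⟩, e⟩
    exact ⟨h, hh, w, hw, e⟩
  · rintro ⟨h, hh, w, hw, e⟩
    exact ⟨h, w, ⟨hh, hw⟩, e⟩

/-- the largest element of `G` -/
def gm (P : ℕ → ℕ) (E : ℕ) : ℕ → ℕ
  | 0 => 1
  | k + 1 => P k ^ (E * 14) * gm P E k

theorem gm_mem (P : ℕ → ℕ) (E k : ℕ) : gm P E k ∈ G P E k := by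
  induction k with
  | zero => simp [gm, G]
  | succ k ih => exact mem_G_succ.mpr ⟨14, by decide, _, ih, rfl⟩

theorem one_mem_G (P : ℕ → ℕ) (E k : ℕ) : 1 ∈ G P E k := by
  induction k with
  | zero => simp [G]
  | succ k ih => exact mem_G_succ.mpr ⟨0, by decide, _, ih, by simp⟩

theorem G_pos_le {P : ℕ → ℕ} (hP : ∀ i, 0 < P i) (E k : ℕ) :
    ∀ g ∈ G P E k, 0 < g ∧ g ≤ gm P E k := by
  induction k with
  | zero => simp [G, gm]
  | succ k ih =>
    intro g hg
    obtain ⟨h, hh, g1, hg1, rfl⟩ := mem_G_succ.mp hg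
    obtain ⟨h1, h2⟩ := ih g1 hg1
    refine ⟨Nat.mul_pos (pow_pos (hP k) _) h1, ?_⟩
    exact Nat.mul_le_mul (Nat.pow_le_pow_right (hP k) (Nat.mul_le_mul_left _ (H_le h hh))) h2

theorem G_mod {P : ℕ → ℕ} {E M : ℕ} (hP : ∀ i, P i ^ E ≡ 1 [MOD M]) (k : ℕ) :
    ∀ g ∈ G P E k, g ≡ 1 [MOD M] := by
  induction k with
  | zero =>
    intro g hg
    simp only [G, mem_singleton] at hg
    rw [hg]
  | succ k ih =>
    intro g hg
    obtain ⟨h, hh, g1, hg1, rfl⟩ := mem_G_succ.mp hg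
    have h1 : P k ^ (E * h) ≡ 1 [MOD M] := by
      rw [pow_mul]
      simpa using (hP k).pow h
    simpa using h1.mul (ih g1 hg1)

theorem gm_le {P : ℕ → ℕ} {E c : ℕ} (hP : ∀ i, P i ≤ 2 ^ (i + c)) (k : ℕ) :
    gm P E k ≤ 2 ^ (E * 14 * (k * (k + c))) := by
  induction k with
  | zero => simp [gm]
  | succ k ih =>
    calc gm P E (k + 1) = P k ^ (E * 14) * gm P E k := rfl
      _ ≤ (2 ^ (k + c)) ^ (E * 14) * 2 ^ (E * 14 * (k * (k + c))) :=
        Nat.mul_le_mul (Nat.pow_le_pow_left (hP k) _) ih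
      _ = 2 ^ (E * 14 * ((k + 1) * (k + c))) := by
        rw [← pow_mul, ← pow_add]; congr 1; ring
      _ ≤ 2 ^ (E * 14 * ((k + 1) * (k + 1 + c))) := by
        apply Nat.pow_le_pow_right (by norm_num)
        gcongr
        omega

/-- products of two elements of `G` with the elements of a set `N` -/
def T (P : ℕ → ℕ) (E : ℕ) (N : Finset ℕ) (k : ℕ) : Finset ℕ :=
  (G P E k ×ˢ G P E k ×ˢ N).image (fun p => p.1 * p.2.1 * p.2.2)

theorem mem_T {P : ℕ → ℕ} {E : ℕ} {N : Finset ℕ} {k x : ℕ} :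
    x ∈ T P E N k ↔ ∃ g ∈ G P E k, ∃ g' ∈ G P E k, ∃ n ∈ N, g * g' * n = x := by
  simp only [T, mem_image, mem_product, Prod.exists]
  constructor
  · rintro ⟨g, g', n, ⟨hg, hg', hn⟩, e⟩
    exact ⟨g, hg, g', hg', n, hn, e⟩
  · rintro ⟨g, hg, g', hg', n, hn, e⟩
    exact ⟨g, g', n, ⟨hg, hg', hn⟩, e⟩

theorem G_not_dvd {P : ℕ → ℕ} (hP : ∀ i, (P i).Prime) (hinj : Function.Injective P) (E k j : ℕ)
    (hj : k ≤ j) : ∀ g ∈ G P E k, ¬ P j ∣ g := by
  induction k with
  | zero =>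
    intro g hg
    simp only [G, mem_singleton] at hg
    rw [hg]
    exact fun h => (hP j).one_lt.ne' (Nat.dvd_one.mp h)
  | succ k ih =>
    intro g hg
    obtain ⟨h, hh, g1, hg1, rfl⟩ := mem_G_succ.mp hg
    intro hd
    rcases (hP j).dvd_mul.mp hd with h1 | h1
    · have h2 := (hP j).dvd_of_dvd_pow h1
      have h3 := (Nat.prime_dvd_prime_iff_eq (hP j) (hP k)).mp h2
      have := hinj h3
      omega
    · exact ih (by omega) g1 hg1 h1

theorem card_T {P : ℕ → ℕ} (hP : ∀ i, (P i).Prime) (hinj : Function.Injective P) {E : ℕ}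
    (hE : 0 < E) {N : Finset ℕ} (hN : ∀ n ∈ N, ∀ i, ¬ P i ∣ n) (k : ℕ) :
    26 ^ k * N.card ≤ (T P E N k).card := by
  induction k with
  | zero =>
    have : T P E N 0 = N := by
      ext x
      rw [mem_T]
      simp [G]
    rw [this]
    simp
  | succ k ih =>
    have h : ((SH ×ˢ T P E N k).image (fun p => P k ^ (E * p.1) * p.2)) ⊆ T P E N (k + 1) := by
      intro x hx
      simp only [mem_image, mem_product, Prod.exists] at hx
      obtain ⟨s, u, ⟨hs, hu⟩, rfl⟩ := hx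
      simp only [SH, mem_image, mem_product, Prod.exists] at hs
      obtain ⟨h1, h2, ⟨hh1, hh2⟩, rfl⟩ := hs
      obtain ⟨g1, hg1, g2, hg2, n, hn, rfl⟩ := mem_T.mp hu
      exact mem_T.mpr ⟨_, mem_G_succ.mpr ⟨h1, hh1, g1, hg1, rfl⟩, _,
        mem_G_succ.mpr ⟨h2, hh2, g2, hg2, rfl⟩, n, hn, by ring⟩
    have h2 := card_le_card h
    rw [card_image_of_injOn, card_product, card_SH] at h2
    · calc 26 ^ (k + 1) * N.card = 26 * (26 ^ k * N.card) := by ring
        _ ≤ 26 * (T P E N k).card := Nat.mul_le_mul_left _ ih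
        _ ≤ _ := h2
    · have hnd : ∀ u ∈ T P E N k, ¬ P k ∣ u := by
        intro u hu hd
        obtain ⟨g1, hg1, g2, hg2, n, hn, rfl⟩ := mem_T.mp hu
        rcases (hP k).dvd_mul.mp hd with h1 | h1
        · rcases (hP k).dvd_mul.mp h1 with h1 | h1
          · exact G_not_dvd hP hinj E k k le_rfl g1 hg1 h1
          · exact G_not_dvd hP hinj E k k le_rfl g2 hg2 h1
        · exact hN n hn k h1
      -- injectivity
      have aux : ∀ a b c d : ℕ, b ∈ T P E N k → d ∈ T P E N k →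
          P k ^ (E * a) * b = P k ^ (E * c) * d → c ≤ a := by
        intro a b c d hb hd e
        by_contra hlt
        push Not at hlt
        have h3 : E * c = E * a + (E * (c - a - 1) + (E - 1) + 1) := by
          obtain ⟨m, rfl⟩ : ∃ m, c = a + 1 + m := ⟨c - a - 1, by omega⟩
          obtain ⟨E', rfl⟩ : ∃ E', E = E' + 1 := ⟨E - 1, by omega⟩
          have h8 : a + 1 + m - a - 1 = m := by omega
          rw [h8, Nat.add_sub_cancel]
          ring
        rw [h3, pow_add, mul_assoc] at e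
        have h4 := Nat.eq_of_mul_eq_mul_left (pow_pos (hP k).pos _) e
        apply hnd b hb
        rw [h4, pow_succ]
        exact Dvd.dvd.mul_right (dvd_mul_left _ _) _
      rintro ⟨a, b⟩ hab ⟨c, d⟩ hcd e
      simp only [coe_product, Set.mem_prod, mem_coe] at hab hcd
      simp only at e
      have h5 : a = c := le_antisymm (aux c d a b hcd.2 hab.2 e.symm) (aux a b c d hab.2 hcd.2 e)
      subst h5
      have h6 := Nat.eq_of_mul_eq_mul_left (pow_pos (hP k).pos _) e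
      rw [h6]

/-- the ratios of elements of `G` -/
def R (P : ℕ → ℕ) (E k : ℕ) : Finset ℚ :=
  (G P E k ×ˢ G P E k).image (fun p => (p.1 : ℚ) / p.2)

theorem mem_R {P : ℕ → ℕ} {E k : ℕ} {x : ℚ} :
    x ∈ R P E k ↔ ∃ g ∈ G P E k, ∃ g' ∈ G P E k, (g : ℚ) / g' = x := by
  simp only [R, mem_image, mem_product, Prod.exists]
  constructor
  · rintro ⟨h, w, ⟨hh, hw⟩, e⟩
    exact ⟨h, hh, w, hw, e⟩
  · rintro ⟨h, hh, w, hw, e⟩
    exact ⟨h, w, ⟨hh, hw⟩, e⟩

theorem card_R {P : ℕ → ℕ} (hP : ∀ i, 0 < P i) (E k : ℕ) : (R P E k).card ≤ 25 ^ k := by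
  induction k with
  | zero => simp [R, G]
  | succ k ih =>
    have h : R P E (k + 1) ⊆ (DH ×ˢ R P E k).image (fun p => (P k : ℚ) ^ ((E : ℤ) * p.1) * p.2) := by
      intro x hx
      obtain ⟨w, hw, w', hw', rfl⟩ := mem_R.mp hx
      obtain ⟨h1, hh1, w1, hw1, rfl⟩ := mem_G_succ.mp hw
      obtain ⟨h2, hh2, w2, hw2, rfl⟩ := mem_G_succ.mp hw'
      simp only [mem_image, mem_product, Prod.exists]
      refine ⟨(h1 : ℤ) - h2, (w1 : ℚ) / w2, ⟨?_, mem_R.mpr ⟨w1, hw1, w2, hw2, rfl⟩⟩, ?_⟩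
      · simp only [DH, mem_image, mem_product, Prod.exists]
        exact ⟨h1, h2, ⟨hh1, hh2⟩, rfl⟩
      · have hPk : (P k : ℚ) ≠ 0 := by exact_mod_cast (hP k).ne'
        rw [mul_sub, zpow_sub₀ hPk]
        have e1 : (P k : ℚ) ^ ((E : ℤ) * (h1 : ℤ)) = (P k : ℚ) ^ (E * h1) := by
          rw [← zpow_natCast]; push_cast; rfl
        have e2 : (P k : ℚ) ^ ((E : ℤ) * (h2 : ℤ)) = (P k : ℚ) ^ (E * h2) := by
          rw [← zpow_natCast]; push_cast; rfl
        rw [e1, e2]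
        push_cast
        rw [div_mul_div_comm]
    have h2 := (card_le_card h).trans card_image_le
    rw [card_product, card_DH] at h2
    calc (R P E (k + 1)).card ≤ 25 * (R P E k).card := h2
      _ ≤ 25 * 25 ^ k := Nat.mul_le_mul_left _ ih
      _ = 25 ^ (k + 1) := by ring

/-! ### The set -/

/-- the numbers `1 + w + M j` with `w ∈ W t`, `j < L`, `M = 29 ^ t` -/
def V (t L : ℕ) : Finset ℕ := (W t ×ˢ range L).image (fun p => 1 + p.1 + 29 ^ t * p.2)

theorem mem_V {t L x : ℕ} : x ∈ V t L ↔ ∃ w ∈ W t, ∃ j, j < L ∧ 1 + w + 29 ^ t * j = x := by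
  simp only [V, mem_image, mem_product, Prod.exists, mem_range]
  constructor
  · rintro ⟨h, w, ⟨hh, hw⟩, e⟩
    exact ⟨h, hh, w, hw, e⟩
  · rintro ⟨h, hh, w, hw, e⟩
    exact ⟨h, w, ⟨hh, hw⟩, e⟩

theorem V_pos_le {t L : ℕ} : ∀ v ∈ V t L, 0 < v ∧ v ≤ 29 ^ t * L := by
  intro v hv
  obtain ⟨w, hw, j, hj, rfl⟩ := mem_V.mp hv
  have h1 := W_lt t w hw
  refine ⟨by omega, ?_⟩
  calc 1 + w + 29 ^ t * j ≤ 29 ^ t + 29 ^ t * j := by omega
    _ = 29 ^ t * (j + 1) := by ring
    _ ≤ 29 ^ t * L := Nat.mul_le_mul_left _ hj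

/-- the set `G · V` -/
def A (P : ℕ → ℕ) (E k t L : ℕ) : Finset ℕ := (G P E k ×ˢ V t L).image (fun p => p.1 * p.2)

theorem mem_A {P : ℕ → ℕ} {E k t L x : ℕ} :
    x ∈ A P E k t L ↔ ∃ g ∈ G P E k, ∃ v ∈ V t L, g * v = x := by
  simp only [A, mem_image, mem_product, Prod.exists]
  constructor
  · rintro ⟨h, w, ⟨hh, hw⟩, e⟩
    exact ⟨h, hh, w, hw, e⟩
  · rintro ⟨h, hh, w, hw, e⟩
    exact ⟨h, w, ⟨hh, hw⟩, e⟩

/-- few differences -/
theorem card_sub {P : ℕ → ℕ} {E : ℕ} (hP : ∀ i, 0 < P i) (k t L : ℕ)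
    (hmod : ∀ i, P i ^ E ≡ 1 [MOD 29 ^ t]) :
    ((A P E k t L ×ˢ A P E k t L).image (fun p => (p.1 : ℤ) - p.2)).card ≤
      25 ^ t * (2 * (gm P E k * L)) := by
  have hM : (0 : ℤ) < (29 : ℤ) ^ t := by positivity
  have h : ((A P E k t L ×ˢ A P E k t L).image (fun p => (p.1 : ℤ) - p.2)).card ≤
      (((D t).image (fun d => d % (29 : ℤ) ^ t)) ×ˢ
        (Ico (-(gm P E k * L : ℕ) : ℤ) ((gm P E k * L : ℕ) : ℤ))).card := by
    apply card_le_card_of_injOn (fun x => (x % (29 : ℤ) ^ t, x / (29 : ℤ) ^ t))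
    · intro x hx
      rw [mem_coe, mem_image] at hx
      obtain ⟨⟨a, b⟩, hab, rfl⟩ := hx
      rw [mem_product] at hab
      obtain ⟨ha, hb⟩ := hab
      simp only at ha hb ⊢
      obtain ⟨g, hg, v, hv, rfl⟩ := mem_A.mp ha
      obtain ⟨g', hg', v', hv', rfl⟩ := mem_A.mp hb
      obtain ⟨hg0, hgm⟩ := G_pos_le hP E k g hg
      obtain ⟨hg0', hgm'⟩ := G_pos_le hP E k g' hg'
      obtain ⟨hv0, hvm⟩ := V_pos_le v hv
      obtain ⟨hv0', hvm'⟩ := V_pos_le v' hv'
      have hgmod := G_mod hmod k g hg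
      have hgmod' := G_mod hmod k g' hg'
      obtain ⟨w, hw, j, hj, hvj⟩ := mem_V.mp hv
      obtain ⟨w', hw', j', hj', hvj'⟩ := mem_V.mp hv'
      rw [mem_coe, mem_product]
      constructor
      · simp only
        rw [mem_image]
        refine ⟨(w : ℤ) - w', mem_D.mpr ⟨w, hw, w', hw', rfl⟩, ?_⟩
        have h1 : ((g * v : ℕ) : ℤ) ≡ 1 + (w : ℤ) [ZMOD (29 : ℤ) ^ t] := by
          have h2 : g * v ≡ 1 * (1 + w) [MOD 29 ^ t] := by
            apply hgmod.mul
            rw [← hvj]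
            simp [Nat.ModEq, Nat.add_mul_mod_self_left]
          have h3 := (Int.natCast_modEq_iff (n := 29 ^ t)).mpr h2
          push_cast at h3 ⊢
          simpa using h3
        have h1' : ((g' * v' : ℕ) : ℤ) ≡ 1 + (w' : ℤ) [ZMOD (29 : ℤ) ^ t] := by
          have h2 : g' * v' ≡ 1 * (1 + w') [MOD 29 ^ t] := by
            apply hgmod'.mul
            rw [← hvj']
            simp [Nat.ModEq, Nat.add_mul_mod_self_left]
          have h3 := (Int.natCast_modEq_iff (n := 29 ^ t)).mpr h2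
          push_cast at h3 ⊢
          simpa using h3
        have h4 := h1.sub h1'
        have h5 : (1 + (w : ℤ)) - (1 + (w' : ℤ)) = (w : ℤ) - w' := by ring
        rw [h5] at h4
        exact h4.symm
      · simp only
        rw [mem_Ico]
        have hb1 : (g * v : ℕ) ≤ gm P E k * (29 ^ t * L) := Nat.mul_le_mul hgm hvm
        have hb2 : (g' * v' : ℕ) ≤ gm P E k * (29 ^ t * L) := Nat.mul_le_mul hgm' hvm'
        have hb3 : 0 < g * v := Nat.mul_pos hg0 hv0
        have hb4 : 0 < g' * v' := Nat.mul_pos hg0' hv0'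
        have e : gm P E k * (29 ^ t * L) = (gm P E k * L) * 29 ^ t := by ring
        rw [e] at hb1 hb2
        have hb1' : ((g * v : ℕ) : ℤ) ≤ ((gm P E k * L : ℕ) : ℤ) * (29 : ℤ) ^ t := by
          exact_mod_cast hb1
        have hb2' : ((g' * v' : ℕ) : ℤ) ≤ ((gm P E k * L : ℕ) : ℤ) * (29 : ℤ) ^ t := by
          exact_mod_cast hb2
        have hb3' : (0 : ℤ) < ((g * v : ℕ) : ℤ) := by exact_mod_cast hb3
        have hb4' : (0 : ℤ) < ((g' * v' : ℕ) : ℤ) := by exact_mod_cast hb4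
        constructor
        · apply (Int.le_ediv_iff_mul_le hM).mpr
          linarith
        · apply (Int.ediv_lt_iff_lt_mul hM).mpr
          linarith
    · intro x _ y _ hxy
      have h1 := congrArg Prod.fst hxy
      have h2 := congrArg Prod.snd hxy
      simp only at h1 h2
      rw [← Int.emod_add_mul_ediv x ((29 : ℤ) ^ t), ← Int.emod_add_mul_ediv y ((29 : ℤ) ^ t), h1, h2]
  refine h.trans ?_
  rw [card_product, Int.card_Ico]
  apply Nat.mul_le_mul
  · exact card_image_le.trans (card_D t)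
  · omega

/-- many sums -/
theorem card_add {P : ℕ → ℕ} {E : ℕ} (hP : ∀ i, 0 < P i) (k t L : ℕ)
    (hmod : ∀ i, P i ^ E ≡ 1 [MOD 29 ^ t]) (hL : gm P E k ≤ L) :
    26 ^ t * (gm P E k * L) ≤
      ((A P E k t L ×ˢ A P E k t L).image (fun p => p.1 + p.2)).card := by
  set g := gm P E k with hg
  have hgG : g ∈ G P E k := gm_mem P E k
  have hg0 : 0 < g := (G_pos_le hP E k g hgG).1
  have hgmod := G_mod hmod k g hgG
  -- choose summands
  have hch : ∀ s ∈ S t, ∃ p : ℕ × ℕ, p.1 ∈ W t ∧ p.2 ∈ W t ∧ p.1 + p.2 = s := by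
    intro s hs
    obtain ⟨w, hw, w', hw', e⟩ := mem_S.mp hs
    exact ⟨(w, w'), hw, hw', e⟩
  choose! f hf using hch
  have h : ((S t) ×ˢ (range (g * L))).card ≤
      ((A P E k t L ×ˢ A P E k t L).image (fun p => p.1 + p.2)).card := by
    apply card_le_card_of_injOn
      (fun x => g * (1 + (f x.1).1) + (1 + (f x.1).2) + 29 ^ t * x.2)
    · rintro ⟨s, n⟩ hx
      simp only [coe_product, Set.mem_prod, mem_coe, mem_range] at hx
      obtain ⟨hs, hn⟩ := hx
      obtain ⟨h1, h2, -⟩ := hf s hs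
      simp only
      rw [mem_coe, mem_image]
      have hj : n / g < L := (Nat.div_lt_iff_lt_mul hg0).mpr (by rw [mul_comm]; exact hn)
      have hj' : n % g < L := lt_of_lt_of_le (Nat.mod_lt _ hg0) hL
      refine ⟨(g * (1 + (f s).1 + 29 ^ t * (n / g)), 1 * (1 + (f s).2 + 29 ^ t * (n % g))), ?_, ?_⟩
      · rw [mem_product]
        exact ⟨mem_A.mpr ⟨g, hgG, _, mem_V.mpr ⟨_, h1, _, hj, rfl⟩, rfl⟩,
          mem_A.mpr ⟨1, one_mem_G P E k, _, mem_V.mpr ⟨_, h2, _, hj', rfl⟩, rfl⟩⟩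
      · simp only
        have e := Nat.div_add_mod n g
        calc g * (1 + (f s).1 + 29 ^ t * (n / g)) + 1 * (1 + (f s).2 + 29 ^ t * (n % g))
            = g * (1 + (f s).1) + (1 + (f s).2) + 29 ^ t * (g * (n / g) + n % g) := by ring
          _ = _ := by rw [e]
    · rintro ⟨s, n⟩ hx ⟨s', n'⟩ hx' e
      simp only [coe_product, Set.mem_prod, mem_coe, mem_range] at hx hx'
      obtain ⟨hs, hn⟩ := hx
      obtain ⟨hs', hn'⟩ := hx'
      obtain ⟨h1, h2, h3⟩ := hf s hs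
      obtain ⟨h1', h2', h3'⟩ := hf s' hs'
      simp only at e
      have key : ∀ s n : ℕ, (f s).1 + (f s).2 = s →
          g * (1 + (f s).1) + (1 + (f s).2) + 29 ^ t * n ≡ 2 + s [MOD 29 ^ t] := by
        intro s n h
        have h4 : g * (1 + (f s).1) + (1 + (f s).2) ≡ 1 * (1 + (f s).1) + (1 + (f s).2)
            [MOD 29 ^ t] := (hgmod.mul_right _).add_right _
        have h5 : 1 * (1 + (f s).1) + (1 + (f s).2) = 2 + s := by omega
        rw [h5] at h4
        have h6 : 29 ^ t * n ≡ 0 [MOD 29 ^ t] := by simp [Nat.ModEq]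
        simpa using h4.add h6
      have h7' := (key s n h3).symm
      rw [e] at h7'
      have h7 := h7'.trans (key s' n' h3')
      have h8 : s ≡ s' [MOD 29 ^ t] := Nat.ModEq.add_left_cancel' 2 h7
      have b1 := W_lt t _ h1
      have b2 := W_lt t _ h2
      have b1' := W_lt t _ h1'
      have b2' := W_lt t _ h2'
      have h9 : s = s' := Nat.ModEq.eq_of_lt_of_lt h8 (by omega) (by omega)
      subst h9
      have h10 : 29 ^ t * n = 29 ^ t * n' := by omega
      have h11 := Nat.eq_of_mul_eq_mul_left (by positivity) h10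
      rw [h11]
  rw [card_product, card_range] at h
  exact (Nat.mul_le_mul_right _ (card_S t)).trans h

/-- few ratios -/
theorem card_div {P : ℕ → ℕ} {E : ℕ} (hP : ∀ i, 0 < P i) (k t L : ℕ) :
    ((A P E k t L ×ˢ A P E k t L).image (fun p => (p.1 : ℚ) / p.2)).card ≤
      25 ^ k * (29 ^ t * L) ^ 2 := by
  have h : (A P E k t L ×ˢ A P E k t L).image (fun p => (p.1 : ℚ) / p.2) ⊆
      (R P E k ×ˢ (V t L ×ˢ V t L)).image (fun p => p.1 * ((p.2.1 : ℚ) / p.2.2)) := by
    intro x hx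
    rw [mem_image] at hx
    obtain ⟨⟨a, b⟩, hab, rfl⟩ := hx
    rw [mem_product] at hab
    obtain ⟨g, hg, v, hv, ha⟩ := mem_A.mp hab.1
    obtain ⟨g', hg', v', hv', hb⟩ := mem_A.mp hab.2
    rw [mem_image]
    refine ⟨((g : ℚ) / g', (v, v')), ?_, ?_⟩
    · rw [mem_product, mem_product]
      exact ⟨mem_R.mpr ⟨g, hg, g', hg', rfl⟩, hv, hv'⟩
    · simp only at ha hb ⊢
      rw [← ha, ← hb]
      push_cast
      rw [div_mul_div_comm]
  have hV : (V t L).card ≤ 29 ^ t * L := by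
    have : V t L ⊆ Icc 1 (29 ^ t * L) := by
      intro v hv
      obtain ⟨h1, h2⟩ := V_pos_le v hv
      exact mem_Icc.mpr ⟨h1, h2⟩
    simpa using card_le_card this
  have h2 := (card_le_card h).trans card_image_le
  rw [card_product, card_product] at h2
  calc _ ≤ (R P E k).card * ((V t L).card * (V t L).card) := h2
    _ ≤ 25 ^ k * ((29 ^ t * L) * (29 ^ t * L)) :=
      Nat.mul_le_mul (card_R hP E k) (Nat.mul_le_mul hV hV)
    _ = _ := by ring

/-- many products -/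
theorem card_mul {P : ℕ → ℕ} (hP : ∀ i, (P i).Prime) (hinj : Function.Injective P) {E : ℕ}
    (hE : 0 < E) (k t L : ℕ) (N : Finset ℕ) (hN : ∀ n ∈ N, ∀ i, ¬ P i ∣ n)
    (hNV : ∀ n ∈ N, ∃ v ∈ V t L, ∃ v' ∈ V t L, v * v' = n) :
    26 ^ k * N.card ≤
      ((A P E k t L ×ˢ A P E k t L).image (fun p => p.1 * p.2)).card := by
  refine (card_T hP hinj hE hN k).trans (card_le_card ?_)
  intro x hx
  obtain ⟨g, hg, g', hg', n, hn, rfl⟩ := mem_T.mp hx
  obtain ⟨v, hv, v', hv', rfl⟩ := hNV n hn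
  rw [mem_image]
  refine ⟨(g * v, g' * v'), ?_, by ring⟩
  rw [mem_product]
  exact ⟨mem_A.mpr ⟨g, hg, v, hv, rfl⟩, mem_A.mpr ⟨g', hg', v', hv', rfl⟩⟩

/-- Products of two elements of `V` which are multiples of large primes. -/
theorem exists_N (t L : ℕ) (ht : 0 < t) (F : Finset ℕ)
    (hF : ∀ p ∈ F, p.Prime ∧ 29 ^ t < p ∧ p ≤ L) (P : ℕ → ℕ)
    (hP : ∀ i, (P i).Prime ∧ 29 ^ t < P i ∧ P i ∉ F) :
    ∃ N : Finset ℕ, (∀ n ∈ N, ∀ i, ¬ P i ∣ n) ∧
      (∀ n ∈ N, ∃ v ∈ V t L, ∃ v' ∈ V t L, v * v' = n) ∧ F.card ^ 2 ≤ 2 * N.card := by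
  have hM1 : 1 < 29 ^ t := Nat.one_lt_pow ht.ne' (by norm_num)
  -- the cofactors
  have hc : ∀ p ∈ F, ∃ c, 0 < c ∧ c < 29 ^ t ∧ p * c ≡ 1 [MOD 29 ^ t] := by
    intro p hp
    obtain ⟨hp1, hp2, hp3⟩ := hF p hp
    have hcop : Nat.Coprime p (29 ^ t) := by
      apply Nat.Coprime.pow_right
      rw [Nat.coprime_primes hp1 (by norm_num)]
      rintro rfl
      have : 29 ^ 1 ≤ 29 ^ t := Nat.pow_le_pow_right (by norm_num) ht
      omega
    obtain ⟨c, hc1, hc2⟩ := Nat.exists_mul_mod_eq_one_of_coprime hcop hM1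
    refine ⟨c, ?_, hc1, ?_⟩
    · rcases Nat.eq_zero_or_pos c with h | h
      · rw [h] at hc2; simp at hc2
      · exact h
    · rw [Nat.ModEq, hc2, Nat.mod_eq_of_lt hM1]
  choose! c hc0 hc1 hc2 using hc
  have hcp : ∀ p ∈ F, ∀ q ∈ F, ¬ p ∣ c q := by
    intro p hp q hq hd
    have := Nat.le_of_dvd (hc0 q hq) hd
    have := hc1 q hq
    have := (hF p hp).2.1
    omega
  refine ⟨(F ×ˢ F).image (fun x => (x.1 * c x.1) * (x.2 * c x.2)), ?_, ?_, ?_⟩
  · intro n hn i hd
    rw [mem_image] at hn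
    obtain ⟨⟨p, q⟩, hpq, rfl⟩ := hn
    rw [mem_product] at hpq
    simp only at hpq hd
    obtain ⟨hPi, hPM, hPF⟩ := hP i
    have key : ∀ p ∈ F, ¬ P i ∣ p * c p := by
      intro p hp hd
      rcases hPi.dvd_mul.mp hd with h | h
      · have := (Nat.prime_dvd_prime_iff_eq hPi (hF p hp).1).mp h
        exact hPF (this ▸ hp)
      · have := Nat.le_of_dvd (hc0 p hp) h
        have := hc1 p hp
        omega
    rcases hPi.dvd_mul.mp hd with h | h
    · exact key p hpq.1 h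
    · exact key q hpq.2 h
  · intro n hn
    rw [mem_image] at hn
    obtain ⟨⟨p, q⟩, hpq, rfl⟩ := hn
    rw [mem_product] at hpq
    simp only at hpq ⊢
    have key : ∀ p ∈ F, p * c p ∈ V t L := by
      intro p hp
      have h1 : p * c p % 29 ^ t = 1 := by
        have := hc2 p hp
        rw [Nat.ModEq, Nat.mod_eq_of_lt hM1] at this
        exact this
      refine mem_V.mpr ⟨0, zero_mem_W t, p * c p / 29 ^ t, ?_, ?_⟩
      · rw [Nat.div_lt_iff_lt_mul (by positivity)]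
        calc p * c p < p * 29 ^ t := Nat.mul_lt_mul_of_pos_left (hc1 p hp) (hF p hp).1.pos
          _ ≤ L * 29 ^ t := Nat.mul_le_mul_right _ (hF p hp).2.2
      · have := Nat.mod_add_div (p * c p) (29 ^ t)
        omega
    exact ⟨_, key p hpq.1, _, key q hpq.2, rfl⟩
  · have h := card_le_mul_card_image (f := fun x : ℕ × ℕ => (x.1 * c x.1) * (x.2 * c x.2))
      (F ×ˢ F) 2 ?_
    · rw [card_product] at h
      calc F.card ^ 2 = F.card * F.card := by ring
        _ ≤ _ := h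
    · intro n hn
      rw [mem_image] at hn
      obtain ⟨⟨p, q⟩, hpq, hn⟩ := hn
      rw [mem_product] at hpq
      simp only at hpq hn
      have hsub : ((F ×ˢ F).filter (fun x : ℕ × ℕ => (x.1 * c x.1) * (x.2 * c x.2) = n)) ⊆
          {(p, q), (q, p)} := by
        rintro ⟨a, b⟩ hab
        rw [mem_filter, mem_product] at hab
        obtain ⟨⟨ha, hb⟩, he⟩ := hab
        simp only at ha hb he
        rw [← hn] at he
        have key : ∀ a ∈ F, ∀ x ∈ F, ∀ y ∈ F, a ∣ (x * c x) * (y * c y) → a = x ∨ a = y := by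
          intro a ha x hx y hy hd
          have hpa := (hF a ha).1
          rcases hpa.dvd_mul.mp hd with h | h
          · rcases hpa.dvd_mul.mp h with h | h
            · exact Or.inl ((Nat.prime_dvd_prime_iff_eq hpa (hF x hx).1).mp h)
            · exact absurd h (hcp a ha x hx)
          · rcases hpa.dvd_mul.mp h with h | h
            · exact Or.inr ((Nat.prime_dvd_prime_iff_eq hpa (hF y hy).1).mp h)
            · exact absurd h (hcp a ha y hy)
        have h1 := key a ha p hpq.1 q hpq.2 (by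
          rw [← he]; exact Dvd.dvd.mul_right (dvd_mul_right _ _) _)
        have h2 := key b hb p hpq.1 q hpq.2 (by
          rw [← he]; exact Dvd.dvd.mul_left (dvd_mul_right _ _) _)
        have h3 := key p hpq.1 a ha b hb (by
          rw [he]; exact Dvd.dvd.mul_right (dvd_mul_right _ _) _)
        have h4 := key q hpq.2 a ha b hb (by
          rw [he]; exact Dvd.dvd.mul_left (dvd_mul_right _ _) _)
        rw [mem_insert, mem_singleton, Prod.mk.injEq, Prod.mk.injEq]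
        -- `{a, b} = {p, q}`
        by_cases hap : a = p
        · by_cases hbq : b = q
          · exact Or.inl ⟨hap, hbq⟩
          · have hbp : b = p := by tauto
            have : q = p := by
              rcases h4 with h | h
              · exact h.trans hap
              · exact absurd h.symm hbq
            exact Or.inr ⟨hap.trans this.symm, hbp⟩
        · have haq : a = q := by tauto
          have hpb : p = b := by
            rcases h3 with h | h
            · exact absurd h.symm hap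
            · exact h
          exact Or.inr ⟨haq, hpb.symm⟩
      exact (card_le_card hsub).trans card_le_two

/-- many primes in an interval -/
theorem prime_count (K : ℕ) (hK : 0 < K) : 2 ^ K ≤ Nat.primeCounting (2 ^ K) * K + K + 1 := by
  have h := Chebyshev.pi_ge (2 ^ K)
  have hl2 : 0 < Real.log 2 := Real.log_pos (by norm_num)
  have hKr : (0 : ℝ) < K := by exact_mod_cast hK
  have e1 : Real.log ((2 ^ K : ℕ) : ℝ) = K * Real.log 2 := by
    push_cast
    rw [Real.log_pow]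
  rw [e1, div_le_iff₀ (by positivity)] at h
  have e2 : Real.log (((2 ^ K : ℕ) : ℝ) + 1) ≤ (K + 1) * Real.log 2 := by
    have h3 : ((2 ^ K : ℕ) : ℝ) + 1 ≤ 2 ^ (K + 1) := by
      push_cast
      have : (1 : ℝ) ≤ 2 ^ K := one_le_pow₀ (by norm_num)
      rw [pow_succ]
      linarith
    calc Real.log (((2 ^ K : ℕ) : ℝ) + 1) ≤ Real.log (2 ^ (K + 1)) :=
          Real.log_le_log (by positivity) h3
      _ = (K + 1) * Real.log 2 := by rw [Real.log_pow]; push_cast; ring
  have h4 : ((2 ^ K : ℕ) : ℝ) * Real.log 2 ≤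
      ((Nat.primeCounting (2 ^ K) : ℝ) * K + K + 1) * Real.log 2 := by
    nlinarith
  have h5 := le_of_mul_le_mul_right h4 hl2
  exact_mod_cast h5

/-- many primes outside of the sequence `P` -/
theorem exists_F (P : ℕ → ℕ) (M K : ℕ) (hK : 0 < K) (hP : ∀ i, 2 ^ i ≤ P i)
    (hKM : 2 * (3 * K + 1 + M * K + K * K) ≤ 2 ^ K) :
    ∃ F : Finset ℕ, (∀ p ∈ F, p.Prime ∧ M < p ∧ p ≤ 2 ^ K) ∧ (∀ i, P i ∉ F) ∧
      2 ^ K ≤ 2 * F.card * K := by
  classical
  set F := (Nat.primesLE (2 ^ K)) \ (range (M + 1) ∪ (range (K + 1)).image P) with hF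
  refine ⟨F, ?_, ?_, ?_⟩
  · intro p hp
    rw [hF, mem_sdiff, mem_union, mem_range] at hp
    obtain ⟨h1, h2⟩ := hp
    rw [Nat.mem_primesLE] at h1
    push Not at h2
    exact ⟨h1.2, by omega, h1.1⟩
  · intro i hi
    rw [hF, mem_sdiff, mem_union, mem_image] at hi
    obtain ⟨h1, h2⟩ := hi
    rw [Nat.mem_primesLE] at h1
    push Not at h2
    have h3 : K + 1 ≤ i := by
      by_contra hlt
      exact h2.2 i (mem_range.mpr (by omega)) rfl
    have h4 : 2 ^ (K + 1) ≤ 2 ^ K :=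
      (Nat.pow_le_pow_right (by norm_num) h3).trans ((hP i).trans h1.1)
    have h5 : 2 ^ K < 2 ^ (K + 1) := Nat.pow_lt_pow_right (by norm_num) (by omega)
    omega
  · have h1 : (Nat.primesLE (2 ^ K)).card ≤ F.card + (M + 1 + (K + 1)) := by
      have h2 : (Nat.primesLE (2 ^ K)).card ≤
          F.card + (range (M + 1) ∪ (range (K + 1)).image P).card :=
        card_le_card_sdiff_add_card
      have h3 := card_union_le (range (M + 1)) ((range (K + 1)).image P)
      have h4 := card_image_le (s := range (K + 1)) (f := P)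
      rw [card_range] at h3 h4
      omega
    have h2 := prime_count K hK
    have h3 : (Nat.primesLE (2 ^ K)).card = Nat.primeCounting (2 ^ K) := by
      exact Nat.primesLE_card_eq_primeCounting _
    rw [h3] at h1
    have h4 := Nat.mul_le_mul_right K h1
    have h5 : (F.card + (M + 1 + (K + 1))) * K = F.card * K + M * K + K * K + 2 * K := by ring
    have h6 : 2 * F.card * K = 2 * (F.card * K) := by ring
    rw [h5] at h4
    rw [h6]
    omega

/-- There is a finite nonempty set `A` of positive integers with `|A + A| > |A - A|` and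
`|A · A| > |A / A|`. -/
theorem result : ∃ A : Finset ℕ, A.Nonempty ∧ (∀ a ∈ A, 0 < a) ∧
    ((A ×ˢ A).image (fun p => (p.1 : ℤ) - (p.2 : ℤ))).card <
      ((A ×ˢ A).image (fun p => p.1 + p.2)).card ∧
    ((A ×ˢ A).image (fun p => (p.1 : ℚ) / (p.2 : ℚ))).card <
      ((A ×ˢ A).image (fun p => p.1 * p.2)).card := by
  obtain ⟨t, ht0, ht⟩ : ∃ t : ℕ, 0 < t ∧ 2 * 25 ^ t < 26 ^ t := ⟨18, by norm_num, by norm_num⟩
  obtain ⟨M, hM⟩ : ∃ M : ℕ, M = 29 ^ t := ⟨_, rfl⟩
  have hM0 : 0 < M := by rw [hM]; positivity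
  -- the primes
  have hPex : ∀ i : ℕ, ∃ p : ℕ, p.Prime ∧ 2 ^ (i + M) < p ∧ p ≤ 2 ^ (i + (M + 1)) := by
    intro i
    obtain ⟨p, h1, h2, h3⟩ := Nat.exists_prime_lt_and_le_two_mul (2 ^ (i + M)) (by positivity)
    exact ⟨p, h1, h2, h3.trans (le_of_eq (by ring))⟩
  choose P hPp hPl hPu using hPex
  have hmono : StrictMono P := by
    apply strictMono_nat_of_lt_succ
    intro i
    calc P i ≤ 2 ^ (i + (M + 1)) := hPu i
      _ = 2 ^ (i + 1 + M) := by congr 1; ring
      _ < P (i + 1) := hPl (i + 1)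
  have hPM : ∀ i, M < P i := by
    intro i
    calc M < 2 ^ M := Nat.lt_two_pow_self
      _ ≤ 2 ^ (i + M) := Nat.pow_le_pow_right (by norm_num) (by omega)
      _ < P i := hPl i
  obtain ⟨E, hE⟩ : ∃ E : ℕ, E = Nat.totient M := ⟨_, rfl⟩
  have hE0 : 0 < E := by rw [hE]; exact Nat.totient_pos.mpr hM0
  have hmod : ∀ i, P i ^ E ≡ 1 [MOD 29 ^ t] := by
    intro i
    rw [hE, ← hM]
    apply Nat.ModEq.pow_totient
    rw [hM]
    apply Nat.Coprime.pow_right
    rw [Nat.coprime_primes (hPp i) (by norm_num)]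
    intro h
    have h1 := hPM i
    have : 29 ^ 1 ≤ 29 ^ t := Nat.pow_le_pow_right (by norm_num) ht0
    omega
  -- the size parameter
  set c := M + 1 with hc
  set C : ℝ := ((E * 14 * (c + 1) : ℕ) : ℝ) with hC
  have hev1 : ∀ᶠ K : ℕ in Filter.atTop, 2 * (3 * K + 1 + M * K + K * K) ≤ 2 ^ K := by
    have h1 := tendsto_pow_const_mul_const_pow_of_abs_lt_one 2 (r := (1 / 2 : ℝ))
      (by rw [abs_of_pos (by norm_num)]; norm_num)
    have h2 := h1.eventually (gt_mem_nhds (show (0 : ℝ) < 1 / (2 * (M + 5)) by positivity))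
    filter_upwards [h2, Filter.eventually_ge_atTop 1] with K hK hK1
    have hK' : (2 : ℝ) * (M + 5) * (K : ℝ) ^ 2 < 2 ^ K := by
      rw [one_div_pow, mul_one_div, lt_div_iff₀ (by positivity), div_mul_eq_mul_div,
        div_lt_one (by positivity)] at hK
      linarith
    have hK'' : 2 * (M + 5) * K ^ 2 < 2 ^ K := by exact_mod_cast hK'
    have e1 : K ≤ K * K := Nat.le_mul_self K
    have e2 : M * K ≤ M * (K * K) := Nat.mul_le_mul_left _ e1
    calc 2 * (3 * K + 1 + M * K + K * K) ≤ 2 * (3 * (K * K) + K * K + M * (K * K) + K * K) := by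
          omega
      _ = 2 * (M + 5) * K ^ 2 := by ring
      _ ≤ 2 ^ K := hK''.le
  have hev2 : ∀ᶠ k : ℕ in Filter.atTop,
      8 * (M : ℝ) ^ 2 * (C * (k : ℝ) ^ 2) ^ 2 * 25 ^ k < 26 ^ k := by
    have h1 := tendsto_pow_const_mul_const_pow_of_abs_lt_one 4 (r := (25 / 26 : ℝ))
      (by rw [abs_of_pos (by norm_num)]; norm_num)
    have h2 := h1.eventually (gt_mem_nhds
      (show (0 : ℝ) < 1 / (8 * (M : ℝ) ^ 2 * C ^ 2 + 1) by positivity))
    filter_upwards [h2] with k hk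
    rw [div_pow, mul_div_assoc', lt_div_iff₀ (by positivity), div_mul_eq_mul_div,
      div_lt_one (by positivity)] at hk
    have h3 : (0 : ℝ) ≤ (k : ℝ) ^ 4 * 25 ^ k := by positivity
    nlinarith
  obtain ⟨K₁, hK₁⟩ := Filter.eventually_atTop.mp hev1
  obtain ⟨k, hk, hkK, hk1⟩ := (hev2.and ((Filter.eventually_ge_atTop K₁).and
    (Filter.eventually_ge_atTop 1))).exists
  obtain ⟨K, hK⟩ : ∃ K : ℕ, K = E * 14 * (k * (k + c)) := ⟨_, rfl⟩
  have hkK' : k ≤ K := by
    rw [hK]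
    calc k = 1 * (k * 1) := by ring
      _ ≤ E * 14 * (k * (k + c)) := by
        apply Nat.mul_le_mul (by omega)
        exact Nat.mul_le_mul_left _ (by omega)
  have hKpos : 0 < K := by omega
  have hKM := hK₁ K (by omega)
  have hgm : gm P E k ≤ 2 ^ K := by
    rw [hK]
    exact gm_le hPu k
  obtain ⟨F, hF1, hF2, hF3⟩ := exists_F P M K hKpos (fun i =>
    ((Nat.pow_le_pow_right (by norm_num) (by omega)).trans (hPl i).le)) hKM
  obtain ⟨N, hN1, hN2, hN3⟩ := exists_N t (2 ^ K) ht0 F (by rw [← hM]; exact hF1) P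
    (fun i => ⟨hPp i, by rw [← hM]; exact hPM i, hF2 i⟩)
  have hPpos : ∀ i, 0 < P i := fun i => (hPp i).pos
  refine ⟨A P E k t (2 ^ K), ?_, ?_, ?_, ?_⟩
  · refine ⟨1 * (1 + 0 + 29 ^ t * 0), mem_A.mpr ⟨1, one_mem_G P E k, _,
      mem_V.mpr ⟨0, zero_mem_W t, 0, by positivity, rfl⟩, rfl⟩⟩
  · intro a ha
    obtain ⟨g, hg, v, hv, rfl⟩ := mem_A.mp ha
    exact Nat.mul_pos (G_pos_le hPpos E k g hg).1 (V_pos_le v hv).1
  · refine lt_of_le_of_lt (card_sub hPpos k t (2 ^ K) hmod) (lt_of_lt_of_le ?_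
      (card_add hPpos k t (2 ^ K) hmod hgm))
    have hg0 : 0 < gm P E k := (G_pos_le hPpos E k _ (gm_mem P E k)).1
    have h1 : 0 < gm P E k * 2 ^ K := by positivity
    calc 25 ^ t * (2 * (gm P E k * 2 ^ K)) = (2 * 25 ^ t) * (gm P E k * 2 ^ K) := by ring
      _ < 26 ^ t * (gm P E k * 2 ^ K) := Nat.mul_lt_mul_of_pos_right ht h1
  · refine lt_of_le_of_lt (card_div hPpos k t (2 ^ K)) (lt_of_lt_of_le ?_
      (card_mul hPp hmono.injective hE0 k t (2 ^ K) N hN1 hN2))
    rw [← hM]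
    have hKr : (K : ℝ) ≤ C * (k : ℝ) ^ 2 := by
      have : K ≤ E * 14 * (c + 1) * k ^ 2 := by
        rw [hK, mul_assoc (E * 14)]
        apply Nat.mul_le_mul_left
        have e1 : k ≤ k * k := Nat.le_mul_self k
        have e2 : c * k ≤ c * (k * k) := Nat.mul_le_mul_left _ e1
        calc k * (k + c) = k * k + c * k := by ring
          _ ≤ k * k + c * (k * k) := by omega
          _ = (c + 1) * k ^ 2 := by ring
      rw [hC]
      exact_mod_cast this
    have hFpos : (0 : ℝ) < F.card := by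
      have : 0 < F.card := by
        by_contra h
        have h0 : F.card = 0 := by omega
        rw [h0] at hF3
        have : 0 < 2 ^ K := by positivity
        omega
      exact_mod_cast this
    have hF3' : (2 : ℝ) ^ K ≤ 2 * F.card * K := by exact_mod_cast hF3
    have hN3' : (F.card : ℝ) ^ 2 ≤ 2 * N.card := by exact_mod_cast hN3
    have hgoal : (25 : ℝ) ^ k * ((M : ℝ) * 2 ^ K) ^ 2 < 26 ^ k * (N.card : ℝ) := by
      have h1 : ((2 : ℝ) ^ K) ^ 2 ≤ (2 * F.card * K) ^ 2 := by gcongr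
      have h2 : (K : ℝ) ^ 2 ≤ (C * (k : ℝ) ^ 2) ^ 2 := by gcongr
      calc (25 : ℝ) ^ k * ((M : ℝ) * 2 ^ K) ^ 2 = 25 ^ k * (M : ℝ) ^ 2 * (2 ^ K) ^ 2 := by ring
        _ ≤ 25 ^ k * (M : ℝ) ^ 2 * (2 * F.card * K) ^ 2 := by gcongr
        _ = (8 * (M : ℝ) ^ 2 * (K : ℝ) ^ 2 * 25 ^ k) * ((F.card : ℝ) ^ 2 / 2) := by ring
        _ ≤ (8 * (M : ℝ) ^ 2 * (C * (k : ℝ) ^ 2) ^ 2 * 25 ^ k) * ((F.card : ℝ) ^ 2 / 2) := by
          gcongr
        _ < 26 ^ k * ((F.card : ℝ) ^ 2 / 2) := by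
          apply mul_lt_mul_of_pos_right hk
          positivity
        _ ≤ 26 ^ k * (N.card : ℝ) := by
          gcongr
          linarith
    exact_mod_cast hgoal

end Pool.Agent.Results.MP_9356de_co.BothDominant
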